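import Pool.Agent.Y793.Stm

/-!
# Group theory of alternating wreath products (St_grp, St_perf)
-/

set_option autoImplicit false

namespace Pool.Agent.Y241.WR

open Pool.Agent.H391R2 Pool.Agent.Y793 Equiv

open scoped commutatorElement

variable {G : Type} [Group G] {n : ℕ}

theorem comm_prod (hG : commutator G = ⊤) : commutator (G × G) = ⊤ := by
  rw [commutator_def, ← Subgroup.top_prod_top, Subgroup.commutator_prod_prod, ← commutator_def, hG]

/-- Elements of `H` over a permutation fixing `a` and `b`. -/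
def Hab (H : Subgroup (Wr G n)) (a b : Fin n) : Subgroup (Wr G n) where
  carrier := {x | x ∈ H ∧ x.right a = a ∧ x.right b = b}
  one_mem' := ⟨H.one_mem, rfl, rfl⟩
  mul_mem' := by
    rintro x y ⟨h1, h2, h3⟩ ⟨h4, h5, h6⟩
    refine ⟨H.mul_mem h1 h4, ?_, ?_⟩
    · rw [wr_mul_right, Perm.mul_apply, h5, h2]
    · rw [wr_mul_right, Perm.mul_apply, h6, h3]
  inv_mem' := by
    rintro x ⟨h1, h2, h3⟩
    refine ⟨H.inv_mem h1, ?_, ?_⟩
    · rw [SemidirectProduct.inv_right, Perm.inv_eq_iff_eq, h2]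
    · rw [SemidirectProduct.inv_right, Perm.inv_eq_iff_eq, h3]

theorem inv_fix {σ : Perm (Fin n)} {a : Fin n} (h : σ a = a) : σ⁻¹ a = a := by
  rw [Perm.inv_eq_iff_eq, h]

/-- Values at `a` and `b`. -/
def chi (H : Subgroup (Wr G n)) (a b : Fin n) : Hab H a b →* G × G where
  toFun x := (x.1.left a, x.1.left b)
  map_one' := rfl
  map_mul' := by
    rintro ⟨x, hx⟩ ⟨y, hy⟩
    simp only [Subgroup.coe_mul, wr_mul_left, inv_fix hx.2.1, inv_fix hx.2.2, Prod.mk_mul_mk]

/-- The permutation. -/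
def rho (H : Subgroup (Wr G n)) (a b : Fin n) : Hab H a b →* Perm (Fin n) :=
  SemidirectProduct.rightHom.comp (Subgroup.subtype _)

theorem rho_apply (H : Subgroup (Wr G n)) (a b : Fin n) (x : Hab H a b) :
    rho H a b x = x.1.right := rfl

section

variable (H : Subgroup (Wr G n))

theorem alt_le (h2 : ∀ a b a' b' : Fin n, a ≠ b → a' ≠ b' → ∀ g h : G, ∃ x ∈ H,
      x.right a = a' ∧ x.right b = b' ∧ x.left a' = g ∧ x.left b' = h)
    (h3 : ∃ x ∈ H, x.right.IsThreeCycle) (σ : Perm (Fin n)) (hσ : Perm.sign σ = 1) :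
    ∃ x ∈ H, x.right = σ := by
  have hP : MulAction.IsPreprimitive (H.map SemidirectProduct.rightHom) (Fin n) := by
    refine MulAction.isPreprimitive_of_is_two_pretransitive ?_
    rw [MulAction.is_two_pretransitive_iff]
    intro a b c d hab hcd
    obtain ⟨x, hx, h4, h5, -, -⟩ := h2 a b c d hab hcd 1 1
    exact ⟨⟨x.right, ⟨x, hx, rfl⟩⟩, h4, h5⟩
  obtain ⟨x, hx, hx3⟩ := h3
  have hle := Perm.alternatingGroup_le_of_isPreprimitive_of_isThreeCycle_mem hP hx3
    ⟨x, hx, rfl⟩
  obtain ⟨y, hy, hyσ⟩ := hle (Perm.mem_alternatingGroup.2 hσ)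
  exact ⟨y, hy, hyσ⟩

theorem kill [Finite G] (hn : 7 ≤ n) (hc : 2 * (Nat.card G) ^ 2 < (n - 2).factorial)
    (hA : ∀ σ : Perm (Fin n), Perm.sign σ = 1 → ∃ x ∈ H, x.right = σ) {a b : Fin n} (hab : a ≠ b)
    (σ : Perm (Fin n)) (hσ : Perm.sign σ = 1) (hσa : σ a = a) (hσb : σ b = b) :
    ∃ y ∈ H, y.right = σ ∧ y.left a = 1 ∧ y.left b = 1 := by
  classical
  set s : Finset (Fin n) := (Finset.univ.erase a).erase b with hs
  have hscard : Nat.card s = n - 2 := by
    rw [Nat.card_eq_fintype_card, Fintype.card_coe, hs, Finset.card_erase_of_mem,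
      Finset.card_erase_of_mem (Finset.mem_univ _), Finset.card_univ, Fintype.card_fin]
    · omega
    · simp [hab.symm]
  let j : alternatingGroup s →* Perm (Fin n) :=
    (alternatingGroup (Fin n)).subtype.comp (alternatingGroup.ofSubtype s)
  have hjs : ∀ x, (j x) a = a ∧ (j x) b = b := by
    intro x
    have h1 : (j x).support ⊆ s :=
      (alternatingGroup.mem_range_ofSubtype_iff s (alternatingGroup.ofSubtype s x)).1 ⟨x, rfl⟩
    constructor
    · by_contra h
      have := h1 (Perm.mem_support.2 h)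
      simp [hs] at this
    · by_contra h
      have := h1 (Perm.mem_support.2 h)
      simp [hs] at this
  have hjsign : ∀ x, Perm.sign (j x) = 1 := fun x =>
    Perm.mem_alternatingGroup.1 (alternatingGroup.ofSubtype s x).2
  have hjinj : Function.Injective j :=
    (alternatingGroup (Fin n)).subtype_injective.comp alternatingGroup.ofSubtype_injective
  have hlift : ∀ x, ∃ h : Hab H a b, rho H a b h = j x := by
    intro x
    obtain ⟨y, hy, hyx⟩ := hA (j x) (hjsign x)
    refine ⟨⟨y, hy, ?_, ?_⟩, hyx⟩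
    · rw [hyx]; exact (hjs x).1
    · rw [hyx]; exact (hjs x).2
  set M : Subgroup (alternatingGroup s) := ((chi H a b).ker.map (rho H a b)).comap j with hM
  have hMn : M.Normal := by
    constructor
    rintro m ⟨y, hy, hym⟩ x
    obtain ⟨h, hh⟩ := hlift x
    refine ⟨h * y * h⁻¹, ?_, ?_⟩
    · exact (chi H a b).normal_ker.conj_mem y hy h
    · rw [map_mul, map_mul, map_inv, hh, hym, map_mul, map_mul, map_inv]
  rcases alternatingGroup.normal_subgroup_eq_bot_or_eq_top (by rw [hscard]; omega) (N := M) with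
    h | h
  · exfalso
    choose l hl using hlift
    have hinj : Function.Injective fun x => chi H a b (l x) := by
      intro x y hxy
      simp only at hxy
      have h1 : x⁻¹ * y ∈ M := by
        refine ⟨(l x)⁻¹ * l y, ?_, ?_⟩
        · change (l x)⁻¹ * l y ∈ (chi H a b).ker
          rw [MonoidHom.mem_ker, map_mul, map_inv, hxy, inv_mul_cancel]
        · rw [map_mul, map_inv, hl, hl, map_mul, map_inv]
      rw [h, Subgroup.mem_bot] at h1
      exact (inv_mul_eq_one.1 h1)
    have h1 := Nat.card_le_card_of_injective _ hinj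
    have : Nontrivial s := by
      rw [← Finite.one_lt_card_iff_nontrivial, hscard]
      omega
    have h2 := two_mul_nat_card_alternatingGroup (α := s)
    rw [Nat.card_perm, hscard] at h2
    rw [Nat.card_prod] at h1
    nlinarith
  · have h1 : σ ∈ j.range := by
      have h2 := (alternatingGroup.mem_range_ofSubtype_iff s
        ⟨σ, Perm.mem_alternatingGroup.2 hσ⟩).2 (by
          intro i hi
          rw [Perm.mem_support] at hi
          simp only [hs, Finset.mem_erase, Finset.mem_univ, and_true]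
          constructor
          · rintro rfl; exact hi hσb
          · rintro rfl; exact hi hσa)
      obtain ⟨x, hx⟩ := h2
      exact ⟨x, congrArg Subtype.val hx⟩
    obtain ⟨x, rfl⟩ := h1
    have h2 : x ∈ M := by rw [h]; trivial
    obtain ⟨y, hy, hyx⟩ := h2
    have h3 : chi H a b y = 1 := hy
    exact ⟨y.1, y.2.1, hyx, congrArg Prod.fst h3, congrArg Prod.snd h3⟩

/-- The part of `H` inside the base group. -/
def Bs : Subgroup (Fin n → G) := H.comap SemidirectProduct.inl

theorem mem_Bs {f : Fin n → G} : f ∈ Bs H ↔ (SemidirectProduct.inl f : Wr G n) ∈ H := Iff.rfl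

theorem pair_onto [Finite G] (hG : commutator G = ⊤) (hn : 7 ≤ n)
    (hc : 2 * (Nat.card G) ^ 2 < (n - 2).factorial)
    (h2 : ∀ a b a' b' : Fin n, a ≠ b → a' ≠ b' → ∀ g h : G, ∃ x ∈ H,
      x.right a = a' ∧ x.right b = b' ∧ x.left a' = g ∧ x.left b' = h)
    (hA : ∀ σ : Perm (Fin n), Perm.sign σ = 1 → ∃ x ∈ H, x.right = σ) {a b : Fin n} (hab : a ≠ b)
    (g h : G) : ∃ f ∈ Bs H, f a = g ∧ f b = h := by
  let ev : (Fin n → G) →* G × G := (Pi.evalMonoidHom _ a).prod (Pi.evalMonoidHom _ b)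
  have hL : (Bs H).map ev = ⊤ := by
    rw [eq_top_iff, ← comm_prod hG, commutator_def, Subgroup.commutator_le]
    rintro ⟨u1, u2⟩ _ ⟨v1, v2⟩ _
    obtain ⟨x, hx, hxa, hxb, hx1, hx2⟩ := h2 a b a b hab hab u1 u2
    obtain ⟨y, hy, hya, hyb, hy1, hy2⟩ := h2 a b a b hab hab v1 v2
    set X : Hab H a b := ⟨x, hx, hxa, hxb⟩ with hX
    set Y : Hab H a b := ⟨y, hy, hya, hyb⟩ with hY
    have hXY : chi H a b ⁅X, Y⁆ = ⁅(u1, u2), (v1, v2)⁆ := by
      rw [map_commutatorElement]
      change ⁅(x.left a, x.left b), (y.left a, y.left b)⁆ = _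
      rw [hx1, hx2, hy1, hy2]
    have hsg : Perm.sign (rho H a b ⁅X, Y⁆) = 1 := by
      rw [map_commutatorElement, map_commutatorElement, commutatorElement_eq_one_iff_mul_comm,
        mul_comm]
    obtain ⟨z, hz, hzr, hza, hzb⟩ := kill H hn hc hA hab (rho H a b ⁅X, Y⁆) hsg ⁅X, Y⁆.2.2.1
      ⁅X, Y⁆.2.2.2
    have hr : (⁅X, Y⁆.1 * z⁻¹).right = 1 := by
      rw [wr_mul_right, SemidirectProduct.inv_right, hzr, rho_apply, mul_inv_cancel]
    refine ⟨(⁅X, Y⁆.1 * z⁻¹).left, ?_, ?_⟩
    · change (SemidirectProduct.inl (⁅X, Y⁆.1 * z⁻¹).left : Wr G n) ∈ H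
      have h5 := SemidirectProduct.inl_left_mul_inr_right (⁅X, Y⁆.1 * z⁻¹)
      rw [hr, map_one, mul_one] at h5
      rw [h5]
      exact H.mul_mem ⁅X, Y⁆.2.1 (H.inv_mem hz)
    · rw [← hXY]
      have e1 : (⁅X, Y⁆.1.right)⁻¹ a = a := inv_fix ⁅X, Y⁆.2.2.1
      have e2 : (⁅X, Y⁆.1.right)⁻¹ b = b := inv_fix ⁅X, Y⁆.2.2.2
      have e3 : z.right a = a := by rw [hzr]; exact ⁅X, Y⁆.2.2.1
      have e4 : z.right b = b := by rw [hzr]; exact ⁅X, Y⁆.2.2.2
      refine Prod.ext ?_ ?_
      · change (⁅X, Y⁆.1 * z⁻¹).left a = ⁅X, Y⁆.1.left a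
        rw [wr_mul_left, e1, wr_inv_left, e3, hza, inv_one, mul_one]
      · change (⁅X, Y⁆.1 * z⁻¹).left b = ⁅X, Y⁆.1.left b
        rw [wr_mul_left, e2, wr_inv_left, e4, hzb, inv_one, mul_one]
  have : (g, h) ∈ (Bs H).map ev := by rw [hL]; trivial
  obtain ⟨f, hf, hfe⟩ := this
  exact ⟨f, hf, congrArg Prod.fst hfe, congrArg Prod.snd hfe⟩

end

theorem base_top (hG : commutator G = ⊤) (B : Subgroup (Fin n → G))
    (hB : ∀ a b : Fin n, a ≠ b → ∀ g h : G, ∃ f ∈ B, f a = g ∧ f b = h) (hn : 2 ≤ n)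
    (f : Fin n → G) : f ∈ B := by
  classical
  have key : ∀ (S : Finset (Fin n)) (a : Fin n), a ∉ S → ∀ g : G, ∃ f ∈ B, f a = g ∧
      ∀ i ∈ S, f i = 1 := by
    intro S
    induction S using Finset.induction_on with
    | empty =>
      intro a _ g
      have : Nontrivial (Fin n) := Fin.nontrivial_iff_two_le.2 hn
      obtain ⟨b, hb⟩ := exists_ne a
      obtain ⟨f, hf, hfa, -⟩ := hB a b hb.symm g 1
      exact ⟨f, hf, hfa, by simp⟩
    | insert b S hbS ih =>
      intro a ha g
      rw [Finset.mem_insert, not_or] at ha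
      let K : Subgroup (Fin n → G) :=
        { carrier := {f | ∀ i ∈ insert b S, f i = 1}
          one_mem' := fun i _ => rfl
          mul_mem' := fun {x y} hx hy i hi => by rw [Pi.mul_apply, hx i hi, hy i hi, one_mul]
          inv_mem' := fun {x} hx i hi => by rw [Pi.inv_apply, hx i hi, inv_one] }
      have hT : (B ⊓ K).map (Pi.evalMonoidHom (fun _ : Fin n => G) a) = ⊤ := by
        rw [eq_top_iff, ← hG, commutator_def, Subgroup.commutator_le]
        intro u _ v _
        obtain ⟨f, hf, hfa, hfS⟩ := ih a ha.2 u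
        obtain ⟨f', hf', hfa', hfb'⟩ := hB a b ha.1 v 1
        refine ⟨⁅f, f'⁆, ⟨?_, ?_⟩, ?_⟩
        · rw [commutatorElement_def]
          exact B.mul_mem (B.mul_mem (B.mul_mem hf hf') (B.inv_mem hf)) (B.inv_mem hf')
        · intro i hi
          rcases Finset.mem_insert.1 hi with rfl | hi
          · simp [commutatorElement_def, hfb']
          · simp [commutatorElement_def, hfS i hi]
        · simp [commutatorElement_def, hfa, hfa']
      have : g ∈ (B ⊓ K).map (Pi.evalMonoidHom (fun _ : Fin n => G) a) := by rw [hT]; trivial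
      obtain ⟨f, ⟨hf, hfK⟩, hfa⟩ := this
      exact ⟨f, hf, hfa, hfK⟩
  refine Subgroup.pi_mem_of_mulSingle_mem f fun i => ?_
  obtain ⟨f', hf', h1, h2⟩ := key (Finset.univ.erase i) i (Finset.notMem_erase _ _) (f i)
  have : f' = Pi.mulSingle i (f i) := by
    funext k
    by_cases hk : k = i
    · subst hk; rw [h1, Pi.mulSingle_eq_same]
    · rw [h2 k (Finset.mem_erase.2 ⟨hk, Finset.mem_univ _⟩), Pi.mulSingle_eq_of_ne hk]
  rw [← this]
  exact hf'

theorem t_grp : St_grp := by
  intro G _ _ hG n hn hc H h2 h3 w hw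
  have hA := alt_le H h2 h3
  have hB : ∀ f : Fin n → G, f ∈ Bs H := base_top hG (Bs H)
    (fun a b hab g h => pair_onto H hG hn hc h2 hA hab g h) (by omega)
  have hw' : Perm.sign w.right = 1 := hw
  obtain ⟨x, hx, hxw⟩ := hA w.right hw'
  have hr : (w * x⁻¹).right = 1 := by
    rw [wr_mul_right, SemidirectProduct.inv_right, hxw, mul_inv_cancel]
  have h5 := SemidirectProduct.inl_left_mul_inr_right (w * x⁻¹)
  rw [hr, map_one, mul_one] at h5
  have h6 : w * x⁻¹ ∈ H := by rw [← h5]; exact hB _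
  have := H.mul_mem h6 hx
  rwa [inv_mul_cancel_right] at this

theorem t_perf : St_perf := by
  intro G _ hG n hn
  have hle : AWr G n ≤ ⁅AWr G n, AWr G n⁆ := by
    have h1 : ∀ (i : Fin n) (g : G), (SemidirectProduct.inl (Pi.mulSingle i g) : Wr G n) ∈
        ⁅AWr G n, AWr G n⁆ := by
      intro i g
      have hinl : ∀ f : Fin n → G, (SemidirectProduct.inl f : Wr G n) ∈ AWr G n := by
        intro f
        change Perm.sign (SemidirectProduct.inl f : Wr G n).right = 1
        rw [SemidirectProduct.right_inl, map_one]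
      have hT : (⊤ : Subgroup G) ≤ ⁅AWr G n, AWr G n⁆.comap
          ((SemidirectProduct.inl : (Fin n → G) →* Wr G n).comp
            (MonoidHom.mulSingle (fun _ : Fin n => G) i)) := by
        rw [← hG, commutator_def, Subgroup.commutator_le]
        intro u _ v _
        rw [Subgroup.mem_comap, map_commutatorElement]
        exact Subgroup.commutator_mem_commutator (hinl _) (hinl _)
      exact hT (Subgroup.mem_top g)
    have h2 : ∀ f : Fin n → G, (SemidirectProduct.inl f : Wr G n) ∈ ⁅AWr G n, AWr G n⁆ := by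
      intro f
      have := Subgroup.pi_mem_of_mulSingle_mem
        (H := ⁅AWr G n, AWr G n⁆.comap (SemidirectProduct.inl : (Fin n → G) →* Wr G n)) f
        fun i => h1 i (f i)
      exact this
    have h3 : ∀ σ : Perm (Fin n), Perm.sign σ = 1 →
        (SemidirectProduct.inr σ : Wr G n) ∈ ⁅AWr G n, AWr G n⁆ := by
      intro σ hσ
      have hinr : ∀ τ : alternatingGroup (Fin n), (SemidirectProduct.inr τ.1 : Wr G n) ∈
          AWr G n := by
        intro τ
        change Perm.sign (SemidirectProduct.inr τ.1 : Wr G n).right = 1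
        rw [SemidirectProduct.right_inr]
        exact Perm.mem_alternatingGroup.1 τ.2
      have hT : (⊤ : Subgroup (alternatingGroup (Fin n))) ≤ ⁅AWr G n, AWr G n⁆.comap
          ((SemidirectProduct.inr : Perm (Fin n) →* Wr G n).comp
            (alternatingGroup (Fin n)).subtype) := by
        rw [← commutator_alternatingGroup_eq_top (by simpa using hn),
          commutator_def, Subgroup.commutator_le]
        intro u _ v _
        rw [Subgroup.mem_comap, map_commutatorElement]
        exact Subgroup.commutator_mem_commutator (hinr u) (hinr v)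
      exact hT (Subgroup.mem_top ⟨σ, Perm.mem_alternatingGroup.2 hσ⟩)
    intro w hw
    rw [← SemidirectProduct.inl_left_mul_inr_right w]
    exact Subgroup.mul_mem _ (h2 _) (h3 _ hw)
  rw [eq_top_iff]
  rintro ⟨w, hw⟩ _
  have h1 := hle hw
  rw [← Subgroup.map_subtype_commutator] at h1
  obtain ⟨v, hv, hvw⟩ := h1
  have : v = ⟨w, hw⟩ := Subtype.ext hvw
  rw [← this]
  exact hv

end Pool.Agent.Y241.WR
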