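import Pool.Agent.Y793.Stm
import Pool.Agent.H391R2.WrTrd

/-!
# Extension of embeddings of regular Galois extensions (St_ext, St_star)
-/

set_option autoImplicit false

namespace Pool.Agent.Y241.WR

open Pool.Agent.H391R2 Pool.Agent.Y793 Polynomial

/-- Automorphisms of a field extend to an algebraically closed extension. -/
theorem ext_ring {E N : Type} [Field E] [Field N] [IsAlgClosed N] [Algebra E N] (σ : E ≃+* E) :
    ∃ τ : N ≃+* N, ∀ x : E, τ (algebraMap E N x) = algebraMap E N (σ x) := by
  obtain ⟨s, hs⟩ := exists_isTranscendenceBasis E N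
  let A := Algebra.adjoin E (Set.range ((↑) : s → N))
  have hA : IsAlgClosure A N := IsAlgClosed.isAlgClosure_of_transcendence_basis _ hs
  let e0 : MvPolynomial s E ≃+* MvPolynomial s E := MvPolynomial.mapEquiv s σ
  let e1 : MvPolynomial s E ≃ₐ[E] A := hs.1.aevalEquiv
  let e : A ≃+* A := e1.symm.toRingEquiv.trans (e0.trans e1.toRingEquiv)
  refine ⟨IsAlgClosure.equivOfEquiv N N e, fun x => ?_⟩
  have h1 : e (algebraMap E A x) = algebraMap E A (σ x) := by
    change e1 (e0 (e1.symm (algebraMap E A x))) = _
    rw [AlgEquiv.commutes]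
    have : e0 (algebraMap E (MvPolynomial s E) x) = algebraMap E (MvPolynomial s E) (σ x) := by
      change MvPolynomial.map (σ : E →+* E) (MvPolynomial.C x) = MvPolynomial.C (σ x)
      rw [MvPolynomial.map_C]
      rfl
    rw [this, AlgEquiv.commutes]
  have h2 := IsAlgClosure.equivOfEquiv_algebraMap N N e (algebraMap E A x)
  rw [h1] at h2
  exact h2

/-- Two embeddings of an algebraic extension into an algebraically closed field are conjugate. -/
theorem surj {k L N : Type} [Field k] [Field L] [Field N] [IsAlgClosed N] [Algebra k L]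
    [Algebra k N] [Algebra.IsAlgebraic k L] (α β : L →ₐ[k] N) :
    ∃ τ : N ≃ₐ[k] N, ∀ x, τ (α x) = β x := by
  have hcl : IsAlgClosure k (algebraicClosure k N) := inferInstance
  have hn : Normal k (algebraicClosure k N) := IsAlgClosure.normal k _
  let α' : L →ₐ[k] algebraicClosure k N := α.codRestrict (algebraicClosure k N).toSubalgebra
    (fun x => mem_algebraicClosure_iff.2 ((Algebra.IsAlgebraic.isAlgebraic x).algHom α))
  let β' : L →ₐ[k] algebraicClosure k N := β.codRestrict (algebraicClosure k N).toSubalgebra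
    (fun x => mem_algebraicClosure_iff.2 ((Algebra.IsAlgebraic.isAlgebraic x).algHom β))
  obtain ⟨γ, hγ⟩ := exists_aut_of_algHom α' β'
  obtain ⟨τ, hτ⟩ := ext_ring (N := N) (γ : algebraicClosure k N ≃+* algebraicClosure k N)
  refine ⟨AlgEquiv.ofRingEquiv (f := τ) (fun r => ?_), fun x => ?_⟩
  · have h1 := hτ (algebraMap k (algebraicClosure k N) r)
    have h2 : (γ : algebraicClosure k N ≃+* algebraicClosure k N)
      (algebraMap k (algebraicClosure k N) r) = algebraMap k (algebraicClosure k N) r :=
      γ.commutes r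
    rw [h2] at h1
    exact h1
  · have h1 := hτ (α' x)
    have h2 : (γ : algebraicClosure k N ≃+* algebraicClosure k N) (α' x) = β' x := hγ x
    rw [h2] at h1
    exact h1

/-- An algebraic element fixed by all automorphisms is in the base field. -/
theorem fixed {k N : Type} [Field k] [CharZero k] [Field N] [IsAlgClosed N] [Algebra k N] (x : N)
    (hx : IsAlgebraic k x) (h : ∀ τ : N ≃ₐ[k] N, τ x = x) : x ∈ Set.range (algebraMap k N) := by
  have hcl : IsAlgClosure k (algebraicClosure k N) := inferInstance
  have hg : IsGalois k (algebraicClosure k N) := IsAlgClosure.isGalois k _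
  have h1 : (⟨x, mem_algebraicClosure_iff.2 hx⟩ : algebraicClosure k N) ∈
      Set.range (algebraMap k (algebraicClosure k N)) := by
    rw [InfiniteGalois.mem_range_algebraMap_iff_fixed]
    intro f
    obtain ⟨τ, hτ⟩ := surj (N := N) ((algebraicClosure k N).val.comp (f : _ →ₐ[k] _))
      (algebraicClosure k N).val
    obtain ⟨τ', hτ'⟩ := surj (N := N) (algebraicClosure k N).val
      ((algebraicClosure k N).val.comp (f : _ →ₐ[k] _))
    apply Subtype.ext
    have h2 := hτ' (⟨x, mem_algebraicClosure_iff.2 hx⟩ : algebraicClosure k N)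
    have h3 : τ' x = x := h τ'
    exact h2.symm.trans h3
  obtain ⟨a, ha⟩ := h1
  exact ⟨a, congrArg Subtype.val ha⟩

/-- Two different linear polynomials do not give a square. -/
theorem not_sq {K : Type} [Field K] (t₀ t₁ a : K) (ha : a ≠ 0) (ht : t₀ ≠ t₁) (u : RatFunc K) :
    u ^ 2 ≠ RatFunc.C a * (RatFunc.X - RatFunc.C t₀) * (RatFunc.X - RatFunc.C t₁) := by
  intro hu
  set q : K[X] := C a * (X - C t₀) * (X - C t₁) with hq
  have h1 : u ^ 2 = algebraMap K[X] (RatFunc K) q := by
    rw [hu, hq]
    simp
  have hint : IsIntegral K[X] u := by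
    refine ⟨X ^ 2 - C q, monic_X_pow_sub_C _ two_ne_zero, ?_⟩
    simp [h1]
  obtain ⟨p, rfl⟩ := IsIntegrallyClosed.isIntegral_iff.1 hint
  rw [← map_pow] at h1
  have h2 : p ^ 2 = q := IsFractionRing.injective K[X] (RatFunc K) h1
  have h3 : p.eval t₀ = 0 := by
    have := congrArg (eval t₀) h2
    simp only [eval_pow, hq, eval_mul, eval_C, eval_sub, eval_X, sub_self, mul_zero,
      zero_mul] at this
    exact pow_eq_zero_iff two_ne_zero |>.1 this
  obtain ⟨p', rfl⟩ := dvd_iff_isRoot.2 h3
  have h4 : (X - C t₀) * (C a * (X - C t₁)) = (X - C t₀) * ((X - C t₀) * p' ^ 2) := by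
    rw [← mul_assoc, mul_comm (X - C t₀) (C a), ← hq, ← h2]
    ring
  have h5 := mul_left_cancel₀ (X_sub_C_ne_zero t₀) h4
  have h6 := congrArg (eval t₀) h5
  simp only [eval_mul, eval_C, eval_sub, eval_X, sub_self, zero_mul] at h6
  rcases mul_eq_zero.1 h6 with h | h
  · exact ha h
  · exact ht (sub_eq_zero.1 h)

theorem t_star : St_star := by
  intro K Z _ _ _ _ _ _
  by_contra hcon
  push Not at hcon
  choose z a ha hz using hcon
  have hsgn : ∀ (t : K) (γ : Z ≃ₐ[RatFunc K] Z), γ (z t) = z t ∨ γ (z t) = -z t := by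
    intro t γ
    have h1 : (γ (z t)) ^ 2 = (z t) ^ 2 := by
      rw [← map_pow, hz, AlgEquiv.commutes]
    exact sq_eq_sq_iff_eq_or_eq_neg.1 h1
  classical
  obtain ⟨t₀, t₁, hne, hf⟩ := Finite.exists_ne_map_eq_of_infinite
    (fun (t : K) (γ : Z ≃ₐ[RatFunc K] Z) => decide (γ (z t) = z t))
  have hprod : ∀ γ : Z ≃ₐ[RatFunc K] Z, γ (z t₀ * z t₁) = z t₀ * z t₁ := by
    intro γ
    have h1 := congrFun hf γ
    simp only [decide_eq_decide] at h1
    rw [map_mul]
    rcases hsgn t₀ γ with h0 | h0
    · rw [h0, h1.1 h0]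
    · rcases hsgn t₁ γ with h2 | h2
      · rw [h1.2 h2, h2]
      · rw [h0, h2, neg_mul_neg]
  have h2 : z t₀ * z t₁ ∈ (⊥ : IntermediateField (RatFunc K) Z) :=
    (IsGalois.mem_bot_iff_fixed _).2 hprod
  obtain ⟨u, hu⟩ := IntermediateField.mem_bot.1 h2
  refine not_sq t₀ t₁ (a t₀ * a t₁) (mul_ne_zero (ha _) (ha _)) hne u ?_
  apply (algebraMap (RatFunc K) Z).injective
  rw [map_pow, hu, mul_pow, hz, hz, ← map_mul, map_mul RatFunc.C]
  congr 1
  ring

/-- Roots of an irreducible polynomial are conjugate. -/
theorem conj_root {k N : Type} [Field k] [Field N] [IsAlgClosed N] [Algebra k N] {x y : N}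
    (p : k[X]) (hp : Irreducible p) (hx : aeval x p = 0) (hy : aeval y p = 0) :
    ∃ τ : N ≃ₐ[k] N, τ x = y := by
  have : Fact (Irreducible p) := ⟨hp⟩
  have hfin : Module.Finite k (AdjoinRoot p) := (AdjoinRoot.powerBasis hp.ne_zero).finite
  obtain ⟨τ, hτ⟩ := surj (AdjoinRoot.liftAlgHom p (Algebra.ofId k N) x hx)
    (AdjoinRoot.liftAlgHom p (Algebra.ofId k N) y hy)
  have h1 := hτ (AdjoinRoot.root p)
  have e1 : AdjoinRoot.liftAlgHom p (Algebra.ofId k N) x hx (AdjoinRoot.root p) = x :=
    AdjoinRoot.liftAlgHom_root _ _ _ _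
  have e2 : AdjoinRoot.liftAlgHom p (Algebra.ofId k N) y hy (AdjoinRoot.root p) = y :=
    AdjoinRoot.liftAlgHom_root _ _ _ _
  exact ⟨τ, (congrArg τ e1).symm.trans (h1.trans e2)⟩

section Desc

variable {K N : Type} [Field K] [Field N] [Algebra K N]

attribute [local instance] Polynomial.algebra in
/-- Elements of `F(s)` integral over `K[s]` are polynomials in `s` with coefficients integral
over `K`. -/
theorem coeff_int (F : IntermediateField K N) (s : N) (hs : Transcendental F s) (y : N)
    (hy : y ∈ IntermediateField.adjoin F {s}) (p : K[X][X]) (hp : p.Monic)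
    (hpy : eval₂ (aeval s : K[X] →ₐ[K] N).toRingHom y p = 0) :
    ∃ f : F[X], (∀ i, IsIntegral K (f.coeff i)) ∧ aeval s f = y := by
  let ψ : RatFunc F →+* N := (IntermediateField.adjoin F {s}).val.toRingHom.comp
    (RatFunc.algEquivOfTranscendental s hs).toRingEquiv.toRingHom
  have hψ : ∀ g : F[X], ψ (algebraMap F[X] (RatFunc F) g) = aeval s g := by
    intro g
    change ((RatFunc.algEquivOfTranscendental s hs (algebraMap F[X] (RatFunc F) g) :
      IntermediateField.adjoin F {s}) : N) = _
    rw [RatFunc.algEquivOfTranscendental_algebraMap]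
    exact (aeval_algHom_apply (IntermediateField.adjoin F {s}).val
      (IntermediateField.AdjoinSimple.gen F s) g).symm
  set r : RatFunc F := (RatFunc.algEquivOfTranscendental s hs).symm ⟨y, hy⟩ with hr
  have hψr : ψ r = y := by
    change ((RatFunc.algEquivOfTranscendental s hs ((RatFunc.algEquivOfTranscendental s hs).symm
      ⟨y, hy⟩) : IntermediateField.adjoin F {s}) : N) = y
    rw [AlgEquiv.apply_symm_apply]
  let g : K[X] →+* RatFunc F := (algebraMap F[X] (RatFunc F)).comp (mapRingHom (algebraMap K F))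
  have hψg : ψ.comp g = (aeval s : K[X] →ₐ[K] N).toRingHom := by
    apply Polynomial.ringHom_ext
    · intro c
      change ψ (algebraMap F[X] (RatFunc F) (mapRingHom (algebraMap K F) (C c))) = aeval s (C c)
      rw [hψ, coe_mapRingHom, map_C, aeval_C, aeval_C]
      rfl
    · change ψ (algebraMap F[X] (RatFunc F) (mapRingHom (algebraMap K F) X)) = aeval s X
      rw [hψ, coe_mapRingHom, map_X, aeval_X, aeval_X]
  have h1 : eval₂ g r p = 0 := by
    apply ψ.injective
    rw [hom_eval₂, hψg, hψr, hpy, map_zero]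
  have h2 : IsIntegral F[X] r := by
    refine ⟨p.map (mapRingHom (algebraMap K F)), hp.map _, ?_⟩
    rw [eval₂_map]
    exact h1
  obtain ⟨f, hf⟩ := IsIntegrallyClosed.isIntegral_iff.1 h2
  have h3 : eval₂ (mapRingHom (algebraMap K F)) f p = 0 := by
    apply IsFractionRing.injective F[X] (RatFunc F)
    rw [hom_eval₂, hf, map_zero]
    exact h1
  have h4 : IsIntegral K[X] f := ⟨p, hp, h3⟩
  refine ⟨f, fun i => h4.coeff i, ?_⟩
  rw [← hψ, hf, hψr]

variable [CharZero K] [IsAlgClosed N] {L : Type} [Field L] [Algebra L N] [Algebra (RatFunc K) L]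
  [Algebra (RatFunc K) N] [IsScalarTower (RatFunc K) L N] [IsScalarTower K (RatFunc K) N]
  [Algebra K L] [IsScalarTower K (RatFunc K) L] [Algebra.IsAlgebraic (RatFunc K) L]

/-- Descent: for a regular extension `L` of `K` algebraic over `K(s)`, and `s` transcendental over
`F`, the intersection of `L` with `F(s)` is `K(s)`. -/
theorem desc (hreg : ∀ y : L, IsAlgebraic K y → y ∈ Set.range (algebraMap K L))
    (F : IntermediateField K N) (s : N) (hs' : algebraMap (RatFunc K) N RatFunc.X = s)
    (hs : Transcendental F s) (y : L)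
    (hy : algebraMap L N y ∈ IntermediateField.adjoin F {s}) :
    y ∈ Set.range (algebraMap (RatFunc K) L) := by
  have hKL : IsScalarTower K L N := by
    refine IsScalarTower.of_algebraMap_eq fun x => ?_
    rw [IsScalarTower.algebraMap_apply K (RatFunc K) N,
      IsScalarTower.algebraMap_apply (RatFunc K) L N,
      ← IsScalarTower.algebraMap_apply K (RatFunc K) L]
  let _ : Algebra K[X] L := ((algebraMap (RatFunc K) L).comp (algebraMap K[X] (RatFunc K))).toAlgebra
  have : IsScalarTower K[X] (RatFunc K) L := .of_algebraMap_eq fun _ => rfl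
  have hy1 : IsAlgebraic K[X] y := (IsFractionRing.isAlgebraic_iff K[X] (RatFunc K) L).2
    (Algebra.IsAlgebraic.isAlgebraic y)
  obtain ⟨c, hc, p, hp, hpy⟩ := hy1.exists_integral_multiple
  have hcomp : (algebraMap L N).comp (algebraMap K[X] L) = (aeval s : K[X] →ₐ[K] N).toRingHom := by
    apply Polynomial.ringHom_ext
    · intro a
      change algebraMap L N (algebraMap (RatFunc K) L (algebraMap K[X] (RatFunc K) (C a))) =
        aeval s (C a)
      rw [aeval_C, ← IsScalarTower.algebraMap_apply (RatFunc K) L N,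
        IsScalarTower.algebraMap_apply K (RatFunc K) N]
      rfl
    · change algebraMap L N (algebraMap (RatFunc K) L (algebraMap K[X] (RatFunc K) X)) =
        aeval s X
      rw [aeval_X, ← IsScalarTower.algebraMap_apply (RatFunc K) L N, RatFunc.algebraMap_X, hs']
  have hcomp' : ∀ q : K[X], algebraMap L N (algebraMap K[X] L q) = aeval s q := fun q =>
    RingHom.congr_fun hcomp q
  have hpy' : eval₂ (aeval s : K[X] →ₐ[K] N).toRingHom (algebraMap L N (c • y)) p = 0 := by
    rw [← hcomp, ← hom_eval₂, hpy, map_zero]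
  have hmem : algebraMap L N (c • y) ∈ IntermediateField.adjoin F {s} := by
    rw [Algebra.smul_def, map_mul, hcomp']
    refine mul_mem ?_ hy
    rw [aeval_eq_sum_range]
    refine sum_mem fun i _ => ?_
    rw [Algebra.smul_def]
    refine mul_mem ?_ (pow_mem (IntermediateField.mem_adjoin_simple_self F s) i)
    exact (IntermediateField.adjoin F {s}).algebraMap_mem (algebraMap K F (c.coeff i))
  obtain ⟨f, hf, hfy⟩ := coeff_int F s hs _ hmem p hp hpy'
  -- the coefficients come from `K`
  have hsK : Transcendental (algebraicClosure K N) s := by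
    intro h
    exact hs ((h.restrictScalars K).tower_top F)
  have hcharL : CharZero L := charZero_of_injective_algebraMap (algebraMap K L).injective
  have hco : ∀ i, ∃ a : K, algebraMap K N a = (f.coeff i : N) := by
    intro i
    have hia : ∀ j, IsAlgebraic K (f.coeff j : N) := fun j =>
      (hf j).isAlgebraic.algHom F.val
    have h1 : (f.coeff i : N) ∈ Set.range (algebraMap L N) := by
      refine fixed _ ((hia i).tower_top L) fun τ => ?_
      let τK : N →ₐ[K] N := (τ.restrictScalars K : N ≃ₐ[K] N)
      have hmemc : ∀ j, τ (f.coeff j : N) - (f.coeff j : N) ∈ algebraicClosure K N := by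
        intro j
        refine sub_mem ?_ (mem_algebraicClosure_iff.2 (hia j))
        exact mem_algebraicClosure_iff.2 ((hia j).algHom τK)
      let D : (algebraicClosure K N)[X] := ∑ j ∈ Finset.range (f.natDegree + 1),
        monomial j (⟨_, hmemc j⟩ : algebraicClosure K N)
      have hD : aeval s D = 0 := by
        have h2 : τ (algebraMap L N (c • y)) = algebraMap L N (c • y) := τ.commutes _
        have h3 : τ s = s := by
          rw [← hs', IsScalarTower.algebraMap_apply (RatFunc K) L N, τ.commutes]
        rw [← hfy, aeval_eq_sum_range, map_sum] at h2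
        rw [map_sum]
        simp only [aeval_monomial]
        have h4 : ∀ j, τ (f.coeff j • s ^ j) = τ (f.coeff j : N) * s ^ j := by
          intro j
          rw [Algebra.smul_def, map_mul, map_pow, h3]
          rfl
        simp only [h4] at h2
        have h5 : ∀ j, (algebraMap (algebraicClosure K N) N) ⟨_, hmemc j⟩ * s ^ j =
            τ (f.coeff j : N) * s ^ j - f.coeff j • s ^ j := by
          intro j
          rw [Algebra.smul_def]
          exact sub_mul _ _ _
        simp only [h5]
        rw [Finset.sum_sub_distrib, h2, sub_self]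
      have hD0 : D = 0 := by
        by_contra hne
        exact hsK ⟨D, hne, hD⟩
      by_cases hi : i ∈ Finset.range (f.natDegree + 1)
      · have h2 := congrArg (fun q => coeff q i) hD0
        simp only [D, finsetSum_coeff, coeff_monomial, coeff_zero] at h2
        rw [Finset.sum_ite_eq' (Finset.range (f.natDegree + 1)) i] at h2
        rw [if_pos hi] at h2
        exact sub_eq_zero.1 (congrArg Subtype.val h2)
      · rw [coeff_eq_zero_of_natDegree_lt (by simpa using hi)]
        exact map_zero τ
    obtain ⟨l, hl⟩ := h1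
    have h2 : IsAlgebraic K l := by
      have := hia i
      rw [← hl] at this
      exact (isAlgebraic_algebraMap_iff (algebraMap L N).injective).1 this
    obtain ⟨a, rfl⟩ := hreg l h2
    exact ⟨a, by rw [← hl, ← IsScalarTower.algebraMap_apply]⟩
  choose a ha using hco
  have hfin : c • y = algebraMap K[X] L (∑ i ∈ Finset.range (f.natDegree + 1), monomial i (a i)) := by
    apply (algebraMap L N).injective
    rw [hcomp', ← hfy, aeval_eq_sum_range, map_sum]
    refine Finset.sum_congr rfl fun i _ => ?_
    rw [aeval_monomial, ha, Algebra.smul_def]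
    rfl
  refine ⟨algebraMap K[X] (RatFunc K) (∑ i ∈ Finset.range (f.natDegree + 1), monomial i (a i)) /
    algebraMap K[X] (RatFunc K) c, ?_⟩
  have hc' : algebraMap K[X] L c ≠ 0 := by
    have h1 : algebraMap K[X] (RatFunc K) c ≠ 0 :=
      (map_ne_zero_iff _ (IsFractionRing.injective K[X] (RatFunc K))).2 hc
    exact (map_ne_zero (algebraMap (RatFunc K) L)).2 h1
  rw [map_div₀]
  change algebraMap K[X] L _ / algebraMap K[X] L c = y
  rw [← hfin, Algebra.smul_def, mul_div_cancel_left₀ _ hc']

/-- Automorphisms of a regular Galois extension `L` of `K(s)` are induced by automorphisms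
over `F`. -/
theorem ext_gal [FiniteDimensional (RatFunc K) L] [IsGalois (RatFunc K) L]
    (hreg : ∀ y : L, IsAlgebraic K y → y ∈ Set.range (algebraMap K L))
    (F : IntermediateField K N) (s : N) (hs' : algebraMap (RatFunc K) N RatFunc.X = s)
    (hs : Transcendental F s) (γ : L ≃ₐ[RatFunc K] L) :
    ∃ τ : N ≃ₐ[F] N, ∀ z : L, τ (algebraMap L N z) = algebraMap L N (γ z) := by
  have hpoly : ∀ q : K[X], algebraMap (RatFunc K) N (algebraMap K[X] (RatFunc K) q) ∈
      IntermediateField.adjoin F {s} := by
    intro q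
    have hcomp : (algebraMap (RatFunc K) N).comp (algebraMap K[X] (RatFunc K)) =
        (aeval s : K[X] →ₐ[K] N).toRingHom := by
      apply Polynomial.ringHom_ext
      · intro a
        change algebraMap (RatFunc K) N (algebraMap K[X] (RatFunc K) (C a)) = aeval s (C a)
        rw [aeval_C, IsScalarTower.algebraMap_apply K (RatFunc K) N]
        rfl
      · change algebraMap (RatFunc K) N (algebraMap K[X] (RatFunc K) X) = aeval s X
        rw [aeval_X, RatFunc.algebraMap_X, hs']
    have h1 : algebraMap (RatFunc K) N (algebraMap K[X] (RatFunc K) q) = aeval s q :=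
      RingHom.congr_fun hcomp q
    rw [h1, aeval_eq_sum_range]
    refine sum_mem fun i _ => ?_
    rw [Algebra.smul_def]
    refine mul_mem ?_ (pow_mem (IntermediateField.mem_adjoin_simple_self F s) i)
    exact (IntermediateField.adjoin F {s}).algebraMap_mem (algebraMap K F (q.coeff i))
  have hE : ∀ r : RatFunc K, algebraMap (RatFunc K) N r ∈ IntermediateField.adjoin F {s} := by
    intro r
    rw [← RatFunc.num_div_denom r, map_div₀]
    exact div_mem (hpoly _) (hpoly _)
  let S : Subgroup (N ≃ₐ[RatFunc K] N) :=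
    { carrier := {τ | ∀ x ∈ IntermediateField.adjoin F {s}, τ x = x}
      one_mem' := fun x _ => rfl
      mul_mem' := fun {a b} ha hb x hx => by
        rw [AlgEquiv.mul_apply, hb x hx, ha x hx]
      inv_mem' := fun {a} ha x hx => by
        have h1 : a⁻¹ (a x) = x := a.symm_apply_apply x
        rw [ha x hx] at h1
        exact h1 }
  let H : Subgroup (L ≃ₐ[RatFunc K] L) :=
    S.map (AlgEquiv.restrictNormalHom (F := RatFunc K) (K₁ := N) L)
  have hfix : IntermediateField.fixedField H = ⊥ := by
    rw [eq_bot_iff]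
    intro y hy
    rw [IntermediateField.mem_fixedField_iff] at hy
    have h1 : algebraMap L N y ∈ IntermediateField.adjoin F {s} := by
      let j : RatFunc K →+* IntermediateField.adjoin F {s} :=
        (algebraMap (RatFunc K) N).codRestrict (IntermediateField.adjoin F {s}) hE
      let _ : Algebra (RatFunc K) (IntermediateField.adjoin F {s}) := j.toAlgebra
      have : IsScalarTower (RatFunc K) (IntermediateField.adjoin F {s}) N :=
        .of_algebraMap_eq fun _ => rfl
      have hcE : CharZero (IntermediateField.adjoin F {s}) :=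
        charZero_of_injective_algebraMap j.injective
      have halg : IsAlgebraic (IntermediateField.adjoin F {s}) (algebraMap L N y) :=
        IsAlgebraic.tower_top (K := RatFunc K) _
          ((Algebra.IsAlgebraic.isAlgebraic (R := RatFunc K) y).algebraMap (A := N))
      obtain ⟨z, hz⟩ := fixed (k := IntermediateField.adjoin F {s}) (N := N) (algebraMap L N y)
        halg (fun τ => by
          let τ' : N ≃ₐ[RatFunc K] N := AlgEquiv.ofRingEquiv (f := (τ : N ≃+* N)) (fun r =>
            τ.commutes (⟨algebraMap (RatFunc K) N r, hE r⟩ : IntermediateField.adjoin F {s}))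
          have hτ' : τ' ∈ S := fun x hx =>
            τ.commutes (⟨x, hx⟩ : IntermediateField.adjoin F {s})
          have h2 := hy (AlgEquiv.restrictNormalHom L τ') ⟨τ', hτ', rfl⟩
          have h3 := AlgEquiv.restrictNormal_commutes τ' L y
          have h4 : τ'.restrictNormal L y = y := h2
          rw [h4] at h3
          exact h3.symm)
      rw [← hz]
      exact z.2
    rw [IntermediateField.mem_bot]
    exact desc hreg F s hs' hs y h1
  have htop : H = ⊤ := by
    rw [← IntermediateField.fixingSubgroup_fixedField H, hfix, IntermediateField.fixingSubgroup_bot]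
  have hγ : γ ∈ H := by rw [htop]; trivial
  obtain ⟨τ, hτ, hτγ⟩ := hγ
  refine ⟨AlgEquiv.ofRingEquiv (f := (τ : N ≃+* N)) (fun x =>
    hτ _ ((IntermediateField.adjoin F {s}).algebraMap_mem x)), fun z => ?_⟩
  have h1 := AlgEquiv.restrictNormal_commutes τ L z
  have h2 : τ.restrictNormal L = γ := hτγ
  rw [h2] at h1
  exact h1.symm

end Desc

theorem mem_adj {Z N : Type} [Field Z] [Field N] [Algebra Z N] {w : N} {u : Z}
    (hw : w ^ 2 = algebraMap Z N u) {y : N} (hy : y ∈ IntermediateField.adjoin Z {w}) :
    ∃ a b : Z, y = algebraMap Z N a + algebraMap Z N b * w := by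
  have hroot : aeval w (X ^ 2 - C u : Z[X]) = 0 := by simp [hw]
  have hmon : (X ^ 2 - C u : Z[X]).Monic := monic_X_pow_sub_C _ two_ne_zero
  have hint : IsIntegral Z w := ⟨_, hmon, hroot⟩
  have h1 : y ∈ (IntermediateField.adjoin Z {w}).toSubalgebra := hy
  rw [IntermediateField.adjoin_simple_toSubalgebra_of_isAlgebraic hint.isAlgebraic,
    Algebra.adjoin_singleton_eq_range_aeval] at h1
  obtain ⟨p, hp⟩ := h1
  have hp' : aeval w p = y := hp
  have h2 : aeval w (p %ₘ (X ^ 2 - C u)) = y := by
    rw [aeval_modByMonic_eq_self_of_root hroot, hp']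
  have h3 : (p %ₘ (X ^ 2 - C u)).natDegree ≤ 1 := by
    have h4 := natDegree_modByMonic_lt p hmon (by
      intro h
      have := congrArg natDegree h
      rw [natDegree_X_pow_sub_C, natDegree_one] at this
      omega)
    rw [natDegree_X_pow_sub_C] at h4
    omega
  obtain ⟨b, a, hba⟩ := exists_eq_X_add_C_of_natDegree_le_one h3
  refine ⟨a, b, ?_⟩
  rw [← h2, hba]
  simp
  ring

theorem t_ext : St_ext := by
  intro K Z N _ _ _ _ _ _ _ _ _ _ _ hreg t₀ ht₀ F φ w hw hwt γ e
  let _ : Algebra Z N := φ.toRingHom.toAlgebra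
  let _ : Algebra (RatFunc K) N := (φ.toRingHom.comp (algebraMap (RatFunc K) Z)).toAlgebra
  have hφ : ∀ z, algebraMap Z N z = φ z := fun _ => rfl
  have t1 : IsScalarTower (RatFunc K) Z N := .of_algebraMap_eq fun _ => rfl
  have t2 : IsScalarTower K Z N := .of_algebraMap_eq fun x => (φ.commutes x).symm
  have t3 : IsScalarTower K (RatFunc K) N := by
    refine .of_algebraMap_eq fun x => ?_
    rw [IsScalarTower.algebraMap_apply K Z N, IsScalarTower.algebraMap_apply (RatFunc K) Z N,
      ← IsScalarTower.algebraMap_apply K (RatFunc K) Z]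
  have hcZ : CharZero Z := charZero_of_injective_algebraMap (algebraMap K Z).injective
  have hcR : CharZero (RatFunc K) :=
    charZero_of_injective_algebraMap (algebraMap K (RatFunc K)).injective
  have hcN : CharZero N := charZero_of_injective_algebraMap (algebraMap K N).injective
  set u : Z := algebraMap (RatFunc K) Z (RatFunc.X - RatFunc.C t₀) with hu
  have hwu : w ^ 2 = algebraMap Z N u := hw
  set s : N := algebraMap (RatFunc K) N RatFunc.X with hs
  have hsw : w ^ 2 = s - algebraMap K N t₀ := by
    rw [hwu, hu, map_sub, map_sub, ← IsScalarTower.algebraMap_apply (RatFunc K) Z N,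
      ← IsScalarTower.algebraMap_apply (RatFunc K) Z N, ← hs]
    congr 1
    rw [IsScalarTower.algebraMap_apply K (RatFunc K) N]
    rfl
  have hsF : Transcendental F s := by
    intro h
    apply hwt
    have h1 : IsAlgebraic F (w ^ 2) := by
      rw [hsw]
      exact h.sub (isAlgebraic_algebraMap (algebraMap K F t₀))
    exact h1.of_pow two_pos
  have hwZ : ∀ z : Z, algebraMap Z N z ≠ w := by
    intro z hz
    apply ht₀ z 1 one_ne_zero
    apply (algebraMap Z N).injective
    rw [map_one, one_mul, map_pow, hz, hwu]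
  have hw0 : w ≠ 0 := fun h => hwZ 0 (by rw [map_zero, h])
  have hwalg : IsAlgebraic Z w := by
    have : IsAlgebraic Z (w ^ 2) := by rw [hwu]; exact isAlgebraic_algebraMap u
    exact this.of_pow two_pos
  -- the conjugation
  obtain ⟨g, hg⟩ : ∃ g : N ≃ₐ[Z] N, g w = -w := by
    by_contra hcon
    push Not at hcon
    obtain ⟨z, hz⟩ := fixed w hwalg (fun τ => by
      have h1 : (τ w) ^ 2 = w ^ 2 := by rw [← map_pow, hwu, τ.commutes]
      exact (sq_eq_sq_iff_eq_or_eq_neg.1 h1).resolve_right (hcon τ))
    exact hwZ z hz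
  -- the field `L`
  let L : IntermediateField Z N := IntermediateField.adjoin Z {w}
  have hrep : ∀ y : L, ∃ a b : Z, (y : N) = algebraMap Z N a + algebraMap Z N b * w :=
    fun y => mem_adj hwu y.2
  have hmemL : ∀ a b : Z, algebraMap Z N a + algebraMap Z N b * w ∈ L := fun a b =>
    add_mem (L.algebraMap_mem a) (mul_mem (L.algebraMap_mem b)
      (IntermediateField.mem_adjoin_simple_self Z w))
  have t4 : IsScalarTower (RatFunc K) Z L := inferInstance
  have t5 : IsScalarTower (RatFunc K) L N := by
    refine .of_algebraMap_eq fun x => ?_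
    rw [IsScalarTower.algebraMap_apply (RatFunc K) Z L, ← IsScalarTower.algebraMap_apply Z L N,
      ← IsScalarTower.algebraMap_apply (RatFunc K) Z N]
  have t7 : IsScalarTower K Z L := inferInstance
  have t8 : IsScalarTower K L N := by
    refine .of_algebraMap_eq fun x => ?_
    rw [IsScalarTower.algebraMap_apply K Z L, ← IsScalarTower.algebraMap_apply Z L N,
      ← IsScalarTower.algebraMap_apply K Z N]
  have t6 : IsScalarTower K (RatFunc K) L := by
    refine .of_algebraMap_eq fun x => ?_
    apply (algebraMap L N).injective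
    rw [← IsScalarTower.algebraMap_apply K L N, ← IsScalarTower.algebraMap_apply (RatFunc K) L N,
      ← IsScalarTower.algebraMap_apply K (RatFunc K) N]
  have hfd1 : FiniteDimensional Z L := IntermediateField.adjoin.finiteDimensional hwalg.isIntegral
  have hfd : FiniteDimensional (RatFunc K) L := FiniteDimensional.trans (RatFunc K) Z L
  have halgL : Algebra.IsAlgebraic (RatFunc K) L := inferInstance
  have hact : ∀ (σ : N ≃ₐ[RatFunc K] N) (y : L), σ y ∈ L := by
    intro σ y
    obtain ⟨a, b, hab⟩ := hrep y
    have h1 : (σ w) ^ 2 = w ^ 2 := by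
      rw [← map_pow, hwu, hu, ← IsScalarTower.algebraMap_apply (RatFunc K) Z N, σ.commutes]
    rw [hab, map_add, map_mul, ← AlgEquiv.restrictNormal_commutes σ Z a,
      ← AlgEquiv.restrictNormal_commutes σ Z b]
    rcases sq_eq_sq_iff_eq_or_eq_neg.1 h1 with h | h
    · rw [h]; exact hmemL _ _
    · rw [h]
      have := hmemL (σ.restrictNormal Z a) (-(σ.restrictNormal Z b))
      rw [map_neg] at this
      rw [mul_neg, ← neg_mul]
      exact this
  have hnorm : Normal (RatFunc K) L := by
    rw [normal_iff]
    intro x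
    have hx : IsIntegral (RatFunc K) x := Algebra.IsIntegral.isIntegral x
    refine ⟨hx, Splits.of_splits_map (algebraMap L N) (IsAlgClosed.splits _) fun y hy => ?_⟩
    have hyr : aeval y (minpoly (RatFunc K) x) = 0 := by
      rw [mem_roots', IsRoot.def, Polynomial.map_map,
        ← IsScalarTower.algebraMap_eq, eval_map_algebraMap] at hy
      exact hy.2
    have hxr : aeval (algebraMap L N x) (minpoly (RatFunc K) x) = 0 := by
      rw [aeval_algebraMap_apply, minpoly.aeval, map_zero]
    obtain ⟨τ, hτ⟩ := conj_root _ (minpoly.irreducible hx) hxr hyr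
    exact ⟨⟨τ (x : N), hact τ x⟩, hτ⟩
  have hgal : IsGalois (RatFunc K) L := ⟨⟩
  have hregL : ∀ y : L, IsAlgebraic K y → y ∈ Set.range (algebraMap K L) := by
    intro y hy
    obtain ⟨a, b, hab⟩ := hrep y
    have hyN : IsAlgebraic K (y : N) := hy.algebraMap
    have hgy : g (y : N) = algebraMap Z N a - algebraMap Z N b * w := by
      rw [hab, map_add, map_mul, g.commutes, g.commutes, hg, mul_neg, sub_eq_add_neg]
    have hgyN : IsAlgebraic K (g (y : N)) := by
      have := hyN.algHom ((g.restrictScalars K : N ≃ₐ[K] N) : N →ₐ[K] N)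
      exact this
    have haN : IsAlgebraic K (algebraMap Z N a) := by
      have h1 : algebraMap Z N a = ((y : N) + g (y : N)) * algebraMap K N 2⁻¹ := by
        rw [hgy, hab, map_inv₀, map_ofNat]
        field_simp
        ring
      rw [h1]
      exact (hyN.add hgyN).mul (isAlgebraic_algebraMap _)
    have haZ : IsAlgebraic K a := (isAlgebraic_algebraMap_iff (algebraMap Z N).injective).1 haN
    obtain ⟨a', ha'⟩ := hreg a haZ
    by_cases hb : b = 0
    · refine ⟨a', ?_⟩
      apply Subtype.ext
      rw [hab, hb, map_zero, zero_mul, add_zero, ← ha', ← IsScalarTower.algebraMap_apply]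
      rfl
    · exfalso
      have h1 : IsAlgebraic K (algebraMap Z N (b ^ 2 * u)) := by
        have h2 : algebraMap Z N (b ^ 2 * u) = ((y : N) - algebraMap Z N a) ^ 2 := by
          rw [hab, add_sub_cancel_left, map_mul, map_pow, mul_pow, hwu]
        rw [h2]
        exact (hyN.sub haN).pow 2
      obtain ⟨c, hc⟩ := hreg _ ((isAlgebraic_algebraMap_iff (algebraMap Z N).injective).1 h1)
      have hu0 : u ≠ 0 := by
        intro h
        rw [h, map_zero] at hwu
        exact hw0 (pow_eq_zero_iff two_ne_zero |>.1 hwu)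
      have hc0 : c ≠ 0 := by
        intro h
        rw [h, map_zero] at hc
        exact (mul_ne_zero (pow_ne_zero 2 hb) hu0) hc.symm
      apply ht₀ (b * u) c hc0
      rw [map_mul, ← hu]
      have h3 : algebraMap (RatFunc K) Z (RatFunc.C c) = algebraMap K Z c := by
        rw [IsScalarTower.algebraMap_apply K (RatFunc K) Z]
        rfl
      rw [h3, hc]
      ring
  -- the automorphism of `L`
  obtain ⟨σ, hσ1, hσ2⟩ : ∃ σ : N ≃ₐ[RatFunc K] N, (∀ z, σ (algebraMap Z N z) =
      algebraMap Z N (γ z)) ∧ σ w = (e : ℤ) • w := by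
    obtain ⟨σ₁, hσ₁⟩ := surj (IsScalarTower.toAlgHom (RatFunc K) Z N)
      ((IsScalarTower.toAlgHom (RatFunc K) Z N).comp (γ : Z →ₐ[RatFunc K] Z))
    have h0 : ∀ z, σ₁ (algebraMap Z N z) = algebraMap Z N (γ z) := hσ₁
    have h1 : (σ₁ w) ^ 2 = w ^ 2 := by
      rw [← map_pow, hwu, hu, ← IsScalarTower.algebraMap_apply (RatFunc K) Z N, σ₁.commutes]
    have hgg : ∀ z, (g.restrictScalars (RatFunc K)) (algebraMap Z N z) = algebraMap Z N z :=
      fun z => g.commutes z
    have hgw : (g.restrictScalars (RatFunc K)) w = -w := hg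
    rcases Int.units_eq_one_or e with rfl | rfl
    · rcases sq_eq_sq_iff_eq_or_eq_neg.1 h1 with h | h
      · exact ⟨σ₁, h0, by simp [h]⟩
      · refine ⟨σ₁ * g.restrictScalars (RatFunc K), fun z => ?_, ?_⟩
        · rw [AlgEquiv.mul_apply, hgg, h0]
        · rw [AlgEquiv.mul_apply, hgw, map_neg, h]
          simp
    · rcases sq_eq_sq_iff_eq_or_eq_neg.1 h1 with h | h
      · refine ⟨σ₁ * g.restrictScalars (RatFunc K), fun z => ?_, ?_⟩
        · rw [AlgEquiv.mul_apply, hgg, h0]
        · rw [AlgEquiv.mul_apply, hgw, map_neg, h]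
          simp
      · exact ⟨σ₁, h0, by simp [h]⟩
  obtain ⟨τ, hτ⟩ := ext_gal (L := L) hregL F s hs.symm hsF (σ.restrictNormal L)
  have hτ' : ∀ y : L, τ (y : N) = σ (y : N) := by
    intro y
    have h1 := hτ y
    rw [AlgEquiv.restrictNormal_commutes] at h1
    exact h1
  refine ⟨τ, fun z => ?_, ?_⟩
  · have h1 := hτ' ⟨algebraMap Z N z, L.algebraMap_mem z⟩
    exact h1.trans (hσ1 z)
  · have h1 := hτ' ⟨w, IntermediateField.mem_adjoin_simple_self Z w⟩
    exact h1.trans hσ2

end Pool.Agent.Y241.WR
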