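import Pool.Agent.Y793.Stm
import Pool.Agent.H391R2.T4.Hens

/-!
# Triple roots over power series (St_tri, St_set)
-/

set_option autoImplicit false

namespace Pool.Agent.Y241.WR

open Pool.Agent.H391R2.T4 Pool.Agent.Y793 PowerSeries

section tri

variable {κ : Type} [Field κ]

theorem rs_coeff (ω : κ) (f : κ⟦X⟧) (n : ℕ) : coeff n (rescale ω f) = ω ^ n * coeff n f :=
  coeff_rescale _ _ _

theorem rs_const (ω : κ) (f : κ⟦X⟧) : constantCoeff (rescale ω f) = constantCoeff f := by
  rw [← coeff_zero_eq_constantCoeff_apply, rs_coeff]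
  simp

theorem rs_C (ω a : κ) : rescale ω (C a) = C a := by
  ext n
  rw [rs_coeff]
  by_cases h : n = 0
  · subst h; simp
  · rw [coeff_C, if_neg h, mul_zero]

/-- A series fixed by `X ↦ ω X` without constant term is divisible by `X ^ 3`. -/
theorem tri_dvd {ω : κ} (hω : IsPrimitiveRoot ω 3) (b : κ⟦X⟧) (hb : constantCoeff b = 0)
    (hτ : rescale ω b = b) : ∃ c, b = X ^ 3 * c := by
  have h1 : X ^ 3 ∣ b := by
    rw [X_pow_dvd_iff]
    intro m hm
    by_cases hm0 : m = 0
    · rw [hm0, coeff_zero_eq_constantCoeff_apply, hb]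
    · have h2 := congrArg (coeff m) hτ
      rw [rs_coeff] at h2
      have h3 : ω ^ m ≠ 1 := fun h => by
        have := Nat.le_of_dvd (by omega) (hω.dvd_of_pow_eq_one m h)
        omega
      have h4 : (ω ^ m - 1) * coeff m b = 0 := by rw [sub_mul, h2]; ring
      exact (mul_eq_zero.1 h4).resolve_left (sub_ne_zero.2 h3)
  exact h1

theorem t_tri : St_tri := by
  intro κ _ _ _ ω hω f u w₁ hu n hD hlc hτ a ha ha0 hres h0
  classical
  have huC : (C u : κ⟦X⟧) ≠ 0 := by
    intro h
    apply hu
    have := congrArg constantCoeff h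
    simpa using this
  -- the monic version
  let f₁ : Polynomial κ⟦X⟧ := Polynomial.C (C u⁻¹) * f
  have hf₁m : f₁.Monic := by
    rw [Polynomial.Monic, Polynomial.leadingCoeff_mul, Polynomial.leadingCoeff_C, hlc, ← map_mul,
      inv_mul_cancel₀ hu, map_one]
  have hff₁ : f = Polynomial.C (C u) * f₁ := by
    simp only [f₁]
    rw [← mul_assoc, ← Polynomial.C_mul, ← map_mul, mul_inv_cancel₀ hu, map_one, map_one, one_mul]
  have hres₁ : f₁.map constantCoeff = (Polynomial.X - Polynomial.C w₁) ^ 3 *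
      ∏ i, (Polynomial.X - Polynomial.C (a i)) := by
    simp only [f₁]
    rw [Polynomial.map_mul, Polynomial.map_C, constantCoeff_C, hres, ← mul_assoc,
      ← Polynomial.C_mul, inv_mul_cancel₀ hu, Polynomial.C_1, one_mul]
  have hτ₁ : f₁.map (rescale ω) = f₁ := by
    simp only [f₁]
    rw [Polynomial.map_mul, Polynomial.map_C, rs_C, hτ]
  have hder : ∀ i, (f₁.map constantCoeff).derivative.eval (a i) ≠ 0 := by
    intro i
    have hsplit : (Polynomial.X - Polynomial.C w₁) ^ 3 * ∏ i, (Polynomial.X - Polynomial.C (a i)) =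
        (Polynomial.X - Polynomial.C (a i)) * ((Polynomial.X - Polynomial.C w₁) ^ 3 *
          ∏ j ∈ Finset.univ.erase i, (Polynomial.X - Polynomial.C (a j))) := by
      rw [← Finset.mul_prod_erase Finset.univ _ (Finset.mem_univ i)]
      ring
    rw [hres₁, hsplit, Polynomial.derivative_mul]
    simp only [Polynomial.derivative_sub, Polynomial.derivative_X, Polynomial.derivative_C,
      sub_zero, one_mul, Polynomial.eval_add, Polynomial.eval_mul, Polynomial.eval_sub,
      Polynomial.eval_X, Polynomial.eval_C, sub_self, zero_mul, add_zero, Polynomial.eval_pow]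
    refine mul_ne_zero (pow_ne_zero _ (sub_ne_zero.2 (ha0 i))) ?_
    rw [Polynomial.eval_prod]
    refine Finset.prod_ne_zero_iff.2 fun j hj => ?_
    rw [Polynomial.eval_sub, Polynomial.eval_X, Polynomial.eval_C]
    exact sub_ne_zero.2 fun h => (Finset.ne_of_mem_erase hj) (ha h).symm
  have hex : ∀ i, ∃ α : κ⟦X⟧, f₁.eval α = 0 ∧ constantCoeff α = a i := by
    intro i
    refine hensel f₁ hf₁m (a i) ?_ (hder i)
    rw [hres₁, Polynomial.eval_mul, Polynomial.eval_prod,
      Finset.prod_eq_zero (Finset.mem_univ i) (by simp), mul_zero]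
  choose α hα hαa using hex
  have hτα : ∀ i, rescale ω (α i) = α i := by
    intro i
    refine hensel_unique f₁ _ _ ?_ (hα i) (rs_const _ _) (by rw [hαa]; exact hder i)
    rw [← hτ₁, Polynomial.eval_map_apply, hα, map_zero]
  have hαinj : Function.Injective α := fun i j h => ha (by rw [← hαa, ← hαa, h])
  -- division
  obtain ⟨g, hg⟩ : (∏ i, (Polynomial.X - Polynomial.C (α i))) ∣ f₁ := by
    have h1 := Polynomial.prod_multiset_X_sub_C_dvd f₁
    have h2 : (Finset.univ.val.map α) ≤ f₁.roots := by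
      rw [Multiset.le_iff_subset]
      · intro x hx
        obtain ⟨i, -, rfl⟩ := Multiset.mem_map.1 hx
        rw [Polynomial.mem_roots hf₁m.ne_zero]
        exact hα i
      · exact Multiset.Nodup.map hαinj Finset.univ.nodup
    have h3 := Multiset.prod_dvd_prod_of_le (Multiset.map_le_map
      (f := fun a : κ⟦X⟧ => Polynomial.X - Polynomial.C a) h2)
    rw [Multiset.map_map] at h3
    exact h3.trans h1
  have hPm : (∏ i, (Polynomial.X - Polynomial.C (α i))).Monic :=
    Polynomial.monic_prod_of_monic _ _ fun i _ => Polynomial.monic_X_sub_C _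
  have hPd : (∏ i, (Polynomial.X - Polynomial.C (α i))).natDegree = n := by
    rw [Polynomial.natDegree_prod_of_monic _ _ fun i _ => Polynomial.monic_X_sub_C _]
    simp
  have hf₁d : f₁.natDegree = n + 3 := by
    have h1 : f.natDegree = f₁.natDegree := by
      rw [hff₁, Polynomial.natDegree_C_mul huC]
    rw [← h1, hD]
  have hgm : g.Monic := by
    have := hf₁m
    rw [hg] at this
    exact hPm.of_mul_monic_left this
  have hgd : g.natDegree = 3 := by
    have h1 := hPm.natDegree_mul hgm
    rw [← hg, hPd, hf₁d] at h1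
    omega
  have hgres : g.map constantCoeff = (Polynomial.X - Polynomial.C w₁) ^ 3 := by
    have h1 := hres₁
    rw [hg, Polynomial.map_mul, Polynomial.map_prod] at h1
    simp only [Polynomial.map_sub, Polynomial.map_X, Polynomial.map_C, hαa] at h1
    rw [mul_comm] at h1
    refine mul_right_cancel₀ ?_ h1
    exact (Polynomial.monic_prod_of_monic _ _ fun i _ => Polynomial.monic_X_sub_C _).ne_zero
  have hgτ : g.map (rescale ω) = g := by
    have h1 := hτ₁
    rw [hg, Polynomial.map_mul, Polynomial.map_prod] at h1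
    simp only [Polynomial.map_sub, Polynomial.map_X, Polynomial.map_C, hτα] at h1
    exact mul_left_cancel₀ hPm.ne_zero h1
  -- translation to the origin
  set g₁ : Polynomial κ⟦X⟧ := g.comp (Polynomial.X + Polynomial.C (C w₁)) with hg₁
  have hg₁m : g₁.Monic := hgm.comp_X_add_C _
  have hg₁d : g₁.natDegree = 3 := by
    rw [hg₁, Polynomial.natDegree_comp, Polynomial.natDegree_X_add_C, hgd]
  have hg₁res : g₁.map constantCoeff = Polynomial.X ^ 3 := by
    rw [hg₁, Polynomial.map_comp, hgres]
    simp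
  have hg₁τ : g₁.map (rescale ω) = g₁ := by
    rw [hg₁, Polynomial.map_comp, hgτ, Polynomial.map_add, Polynomial.map_X, Polynomial.map_C,
      rs_C]
  have hco : ∀ i < 3, ∃ c, g₁.coeff i = X ^ 3 * c := by
    intro i hi
    refine tri_dvd hω _ ?_ ?_
    · have h1 := congrArg (fun q : Polynomial κ => q.coeff i) hg₁res
      simp only [Polynomial.coeff_map] at h1
      rw [h1, Polynomial.coeff_X_pow, if_neg (by omega)]
    · have h1 := congrArg (fun q : Polynomial κ⟦X⟧ => q.coeff i) hg₁τ
      simpa [Polynomial.coeff_map] using h1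
  obtain ⟨b, hb⟩ := hco 2 (by norm_num)
  obtain ⟨c, hc⟩ := hco 1 (by norm_num)
  obtain ⟨d, hd⟩ := hco 0 (by norm_num)
  have hg₁X : g₁ = Polynomial.X ^ 3 + Polynomial.C (X ^ 3 * b) * Polynomial.X ^ 2 +
      Polynomial.C (X ^ 3 * c) * Polynomial.X + Polynomial.C (X ^ 3 * d) := by
    have h1 := Polynomial.as_sum_range_C_mul_X_pow' g₁ (show g₁.natDegree < 4 by omega)
    have h2 : g₁.coeff 3 = 1 := by
      have := hg₁m.coeff_natDegree
      rwa [hg₁d] at this
    nth_rewrite 1 [h1]
    simp only [Finset.sum_range_succ, Finset.sum_range_zero, h2, hb, hc, hd]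
    simp
    ring
  have hX3 : (X ^ 3 : κ⟦X⟧) ≠ 0 := pow_ne_zero _ X_ne_zero
  have hgw : ∀ x : κ⟦X⟧, g.eval (C w₁ + x) = g₁.eval x := by
    intro x
    rw [hg₁, Polynomial.eval_comp]
    simp [add_comm]
  -- d is a unit
  have hd0 : constantCoeff d ≠ 0 := by
    obtain ⟨v, hv0, hv⟩ := h0
    rw [hff₁, hg, Polynomial.eval_mul, Polynomial.eval_mul, Polynomial.eval_C,
      Polynomial.eval_prod] at hv
    have h2 : g.eval (C w₁) = X ^ 3 * d := by
      have := hgw 0
      rw [add_zero] at this
      rw [this, hg₁X]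
      simp
    rw [h2] at hv
    have h3 : X ^ 3 * (C u * (∏ i, (Polynomial.X - Polynomial.C (α i)).eval (C w₁)) * d) =
        X ^ 3 * v := by
      rw [← hv]
      ring
    have h4 := mul_left_cancel₀ hX3 h3
    intro h5
    apply hv0
    rw [← h4, map_mul, h5, mul_zero]
  -- one root
  obtain ⟨U, hU, hU0⟩ : ∃ U : κ⟦X⟧, g₁.eval (X * U) = 0 ∧ constantCoeff U ≠ 0 := by
    obtain ⟨r, hr⟩ := IsAlgClosed.exists_pow_nat_eq (-constantCoeff d) (n := 3) (by norm_num)
    have hr0 : r ≠ 0 := by
      rintro rfl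
      apply hd0
      have : -constantCoeff d = 0 := by rw [← hr]; simp
      exact neg_eq_zero.1 this
    set G : Polynomial κ⟦X⟧ := Polynomial.X ^ 3 + (Polynomial.C (X ^ 2 * b) * Polynomial.X ^ 2 +
      Polynomial.C (X * c) * Polynomial.X + Polynomial.C d) with hG
    have hGm : G.Monic := by
      refine Polynomial.monic_X_pow_add ?_
      compute_degree
      norm_num
    have hGres : G.map constantCoeff = Polynomial.X ^ 3 + Polynomial.C (constantCoeff d) := by
      rw [hG]
      simp
    obtain ⟨U, hU, hU'⟩ := hensel G hGm r (by rw [hGres]; simp [hr]) (by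
      rw [hGres]
      simp [hr0]
      norm_num)
    refine ⟨U, ?_, by rw [hU']; exact hr0⟩
    have h1 : g₁.eval (X * U) = X ^ 3 * G.eval U := by
      rw [hg₁X, hG]
      simp
      ring
    rw [h1, hU, mul_zero]
  set z₀ : κ⟦X⟧ := C w₁ + X * U with hz₀
  have hz₀g : g.eval z₀ = 0 := by rw [hz₀, hgw, hU]
  have hz₀1 : coeff 1 z₀ ≠ 0 := by
    rw [hz₀, map_add, coeff_C, if_neg one_ne_zero, zero_add]
    have : coeff 1 (X * U) = coeff 0 U := coeff_succ_X_mul 0 U
    rw [this, coeff_zero_eq_constantCoeff_apply]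
    exact hU0
  have hω3 : ω ^ 3 = 1 := hω.pow_eq_one
  let z : ZMod 3 → κ⟦X⟧ := fun j => rescale (ω ^ j.val) z₀
  have hzroot : ∀ j, g.eval (z j) = 0 := by
    have h1 : ∀ m : ℕ, g.eval (rescale (ω ^ m) z₀) = 0 := by
      intro m
      induction m with
      | zero => simpa using hz₀g
      | succ m ih =>
        have h2 : rescale (ω ^ (m + 1)) z₀ = rescale ω (rescale (ω ^ m) z₀) := by
          ext i
          rw [rs_coeff, rs_coeff, rs_coeff, ← mul_assoc, ← mul_pow, pow_succ, mul_comm ω]
        rw [h2, ← hgτ, Polynomial.eval_map_apply, ih, map_zero]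
    exact fun j => h1 _
  have hzinj : Function.Injective z := by
    intro i j hij
    have h1 := congrArg (coeff 1) hij
    simp only [z, rs_coeff, pow_one] at h1
    have h2 : ω ^ i.val = ω ^ j.val := mul_right_cancel₀ hz₀1 h1
    have h3 := hω.pow_inj (ZMod.val_lt i) (ZMod.val_lt j) h2
    exact ZMod.val_injective 3 h3
  have hgz : g = ∏ j, (Polynomial.X - Polynomial.C (z j)) := by
    have h1 : (∏ j, (Polynomial.X - Polynomial.C (z j))) ∣ g := by
      have h1 := Polynomial.prod_multiset_X_sub_C_dvd g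
      have h2 : (Finset.univ.val.map z) ≤ g.roots := by
        rw [Multiset.le_iff_subset]
        · intro x hx
          obtain ⟨i, -, rfl⟩ := Multiset.mem_map.1 hx
          rw [Polynomial.mem_roots hgm.ne_zero]
          exact hzroot i
        · exact Multiset.Nodup.map hzinj Finset.univ.nodup
      have h3 := Multiset.prod_dvd_prod_of_le (Multiset.map_le_map
        (f := fun a : κ⟦X⟧ => Polynomial.X - Polynomial.C a) h2)
      rw [Multiset.map_map] at h3
      exact h3.trans h1
    have h2 : (∏ j, (Polynomial.X - Polynomial.C (z j))).Monic :=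
      Polynomial.monic_prod_of_monic _ _ fun i _ => Polynomial.monic_X_sub_C _
    have h3 : (∏ j, (Polynomial.X - Polynomial.C (z j))).natDegree = 3 := by
      rw [Polynomial.natDegree_prod_of_monic _ _ fun i _ => Polynomial.monic_X_sub_C _]
      simp
    exact Polynomial.eq_of_monic_of_dvd_of_natDegree_le h2 hgm h1 (by rw [h3, hgd])
  refine ⟨α, z, hαa, hτα, fun j => ?_, hzinj, fun j => ?_, ?_⟩
  · simp only [z]
    rw [rs_const, hz₀]
    simp
  · have h1 : ω ^ (j + 1).val = ω * ω ^ j.val := by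
      rw [ZMod.val_add, ← pow_succ']
      have : (ZMod.val (1 : ZMod 3)) = 1 := rfl
      rw [this]
      conv_rhs => rw [← Nat.div_add_mod (j.val + 1) 3]
      rw [pow_add, pow_mul, hω3, one_pow, one_mul]
    simp only [z]
    rw [h1]
    ext i
    rw [rs_coeff, rs_coeff, rs_coeff, ← mul_assoc, ← mul_pow]
  · rw [hff₁, hg, hgz, mul_comm (∏ i, (Polynomial.X - Polynomial.C (α i)))]

theorem t_set : St_set := by
  intro κ _ _ ω hω
  have hω3 : ω * (ω * ω) = 1 := by rw [← hω.pow_eq_one]; ring
  let Ω := AlgebraicClosure (LaurentSeries κ)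
  let τΛ : LaurentSeries κ ≃+* LaurentSeries κ :=
    IsFractionRing.ringEquivOfRingEquiv (A := κ⟦X⟧) (B := κ⟦X⟧)
      (RingEquiv.ofRingHom (rescale ω) (rescale (ω * ω))
        (by
          ext1 f
          ext i
          change coeff i (rescale ω (rescale (ω * ω) f)) = coeff i f
          rw [rs_coeff, rs_coeff, ← mul_assoc, ← mul_pow, hω3, one_pow, one_mul])
        (by
          ext1 f
          ext i
          change coeff i (rescale (ω * ω) (rescale ω f)) = coeff i f
          rw [rs_coeff, rs_coeff, ← mul_assoc, ← mul_pow, mul_comm (ω * ω), hω3, one_pow,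
            one_mul]))
  have hτΛ : ∀ f : κ⟦X⟧, τΛ (algebraMap κ⟦X⟧ (LaurentSeries κ) f) =
      algebraMap κ⟦X⟧ (LaurentSeries κ) (rescale ω f) := by
    intro f
    exact IsFractionRing.ringEquivOfRingEquiv_algebraMap _ _
  let τ' : Ω ≃+* Ω := IsAlgClosure.equivOfEquiv Ω Ω τΛ
  let i0 : κ⟦X⟧ →+* Ω := (algebraMap (LaurentSeries κ) Ω).comp (algebraMap κ⟦X⟧ (LaurentSeries κ))
  have hi0 : Function.Injective i0 :=
    (algebraMap (LaurentSeries κ) Ω).injective.comp (IsFractionRing.injective κ⟦X⟧ (LaurentSeries κ))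
  have hτ' : ∀ f : κ⟦X⟧, τ' (i0 f) = i0 (rescale ω f) := by
    intro f
    change τ' (algebraMap (LaurentSeries κ) Ω _) = _
    rw [IsAlgClosure.equivOfEquiv_algebraMap, hτΛ]
    rfl
  refine ⟨Ω, inferInstance, inferInstance, i0, τ', hi0, hτ', fun p hp => ?_⟩
  rw [← Polynomial.map_map, Polynomial.eval_map_apply] at hp
  have h1 : (p.map (C : κ →+* κ⟦X⟧)).eval (X ^ 3) = 0 := by
    apply hi0
    rw [hp, map_zero]
  have h2 : ((Polynomial.expand κ 3 p : Polynomial κ) : κ⟦X⟧) = 0 := by
    rw [← h1]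
    have h3 : (Polynomial.coeToPowerSeries.ringHom (R := κ)) (Polynomial.expand κ 3 p) =
        Polynomial.eval₂ (C : κ →+* κ⟦X⟧) (X ^ 3) p := by
      rw [Polynomial.expand_eq_comp_X_pow, Polynomial.comp, Polynomial.hom_eval₂]
      congr 1
      · ext x n
        simp
      · simp
    rw [Polynomial.eval_map]
    exact h3
  have h3 : Polynomial.expand κ 3 p = 0 := by exact_mod_cast h2
  exact (Polynomial.expand_eq_zero (by norm_num)).1 h3

end tri

end Pool.Agent.Y241.WR
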